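import Mathlib

/-!
# Renormings of a finite-dimensional inner product space by finitely many atoms

`atomN a rho x = inf { ∑ |c i| + ‖x - ∑ c i • a i‖ / rho }`: the norm whose unit ball is the
absolute convex hull of the atoms `a i` and of the Euclidean ball of radius `rho`.
-/

open Filter Topology

namespace SPB87

/-- A norm on a real vector space, as data. -/
structure NormData (V : Type*) [AddCommGroup V] [Module ℝ V] where
  /-- the norm -/
  N : V → ℝ
  add_le : ∀ x y, N (x + y) ≤ N x + N y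
  smul : ∀ (c : ℝ) (x : V), N (c • x) = |c| * N x
  pos : ∀ x, x ≠ 0 → 0 < N x

namespace NormData

variable {V : Type*} [AddCommGroup V] [Module ℝ V] (D : NormData V)

lemma zero : D.N 0 = 0 := by
  have := D.smul 0 0
  simpa using this

lemma nonneg (x : V) : 0 ≤ D.N x := by
  by_cases h : x = 0
  · rw [h, D.zero]
  · exact (D.pos x h).le

end NormData

/-- The space `V` with the norm `D.N`. -/
def Blk {V : Type*} [AddCommGroup V] [Module ℝ V] (_ : NormData V) : Type _ := V

namespace Blk

variable {V : Type*} [AddCommGroup V] [Module ℝ V] (D : NormData V)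

instance instAddCommGroup : AddCommGroup (Blk D) := inferInstanceAs (AddCommGroup V)

instance instModule : Module ℝ (Blk D) := inferInstanceAs (Module ℝ V)

instance instFinite [FiniteDimensional ℝ V] : FiniteDimensional ℝ (Blk D) :=
  inferInstanceAs (FiniteDimensional ℝ V)

instance instNorm : Norm (Blk D) := ⟨D.N⟩

lemma core : NormedSpace.Core ℝ (Blk D) :=
  { norm_nonneg := D.nonneg
    norm_smul := fun c x => D.smul c x
    norm_triangle := D.add_le
    norm_eq_zero_iff := fun x => ⟨fun h => by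
      by_contra hx
      exact absurd h (D.pos x hx).ne', fun h => by
      change D.N x = 0
      rw [h]
      exact D.zero⟩ }

noncomputable instance instNormedAddCommGroup : NormedAddCommGroup (Blk D) :=
  NormedAddCommGroup.ofCore (core D)

noncomputable instance instNormedSpace : NormedSpace ℝ (Blk D) :=
  NormedSpace.ofCore (core D)

lemma norm_def (x : Blk D) : ‖x‖ = D.N x := rfl

/-- the identity map `V → Blk D` -/
def of : V ≃ₗ[ℝ] Blk D := LinearEquiv.refl ℝ V

lemma norm_of (x : V) : ‖of D x‖ = D.N x := rfl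

lemma finrank_eq : Module.finrank ℝ (Blk D) = Module.finrank ℝ V := rfl

/-- a linear map of `V` as a bounded operator of `Blk D` -/
noncomputable def op [FiniteDimensional ℝ V] (T : V →ₗ[ℝ] V) : Blk D →L[ℝ] Blk D :=
  LinearMap.toContinuousLinearMap (E := Blk D) (F' := Blk D) T

lemma op_apply [FiniteDimensional ℝ V] (T : V →ₗ[ℝ] V) (x : V) :
    op D T (of D x) = of D (T x) := rfl

lemma norm_op_le [FiniteDimensional ℝ V] (T : V →ₗ[ℝ] V) {C : ℝ} (hC : 0 ≤ C)
    (h : ∀ x, D.N (T x) ≤ C * D.N x) : ‖op D T‖ ≤ C :=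
  ContinuousLinearMap.opNorm_le_bound _ hC h

/-- the linear map of `V` underlying a bounded operator -/
def toLin (T : Blk D →L[ℝ] Blk D) : V →ₗ[ℝ] V := (T : Blk D →ₗ[ℝ] Blk D)

lemma toLin_le (T : Blk D →L[ℝ] Blk D) {C : ℝ} (h : ‖T‖ ≤ C) (x : V) :
    D.N (toLin D T x) ≤ C * D.N x := T.le_of_opNorm_le h (of D x)

end Blk

section Atom

variable {V : Type*} [NormedAddCommGroup V] [NormedSpace ℝ V]
variable {ι : Type*} [Fintype ι] (a : ι → V) (rho : ℝ)

/-- the cost of a decomposition -/
noncomputable def cost (x : V) (c : ι → ℝ) : ℝ :=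
  ∑ i, |c i| + ‖x - ∑ i, c i • a i‖ / rho

/-- the atomic norm -/
noncomputable def atomN (x : V) : ℝ := ⨅ c : ι → ℝ, cost a rho x c

variable {rho} (hrho : 0 < rho)

include hrho

lemma cost_nonneg (x : V) (c : ι → ℝ) : 0 ≤ cost a rho x c := by
  unfold cost
  positivity

lemma cost_bdd (x : V) : BddBelow (Set.range (cost a rho x)) :=
  ⟨0, by rintro _ ⟨c, rfl⟩; exact cost_nonneg a hrho x c⟩

lemma atomN_le_cost (x : V) (c : ι → ℝ) : atomN a rho x ≤ cost a rho x c :=
  ciInf_le (cost_bdd a hrho x) c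

lemma atomN_nonneg (x : V) : 0 ≤ atomN a rho x :=
  le_ciInf fun c => cost_nonneg a hrho x c

/-- the infimum is attained -/
lemma exists_cost_eq (x : V) : ∃ c : ι → ℝ, cost a rho x c = atomN a rho x := by
  have hcont : Continuous (cost a rho x) := by
    unfold cost
    fun_prop
  have htend : Tendsto (cost a rho x) (cocompact (ι → ℝ)) atTop := by
    have h1 : Tendsto (fun c : ι → ℝ => ‖c‖) (cocompact (ι → ℝ)) atTop := tendsto_norm_cocompact_atTop
    refine tendsto_atTop_mono (fun c => ?_) h1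
    have h2 : ‖c‖ ≤ ∑ i, |c i| := by
      refine (pi_norm_le_iff_of_nonneg (by positivity)).2 fun i => ?_
      rw [Real.norm_eq_abs]
      exact Finset.single_le_sum (f := fun i => |c i|) (fun _ _ => abs_nonneg _)
        (Finset.mem_univ i)
    unfold cost
    have : 0 ≤ ‖x - ∑ i, c i • a i‖ / rho := by positivity
    linarith
  obtain ⟨c, hc⟩ := hcont.exists_forall_le htend
  exact ⟨c, le_antisymm (le_ciInf hc) (atomN_le_cost a hrho x c)⟩

/-- optimal decomposition -/
lemma exists_decomp (x : V) : ∃ (c : ι → ℝ) (h : V), x = ∑ i, c i • a i + h ∧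
    ∑ i, |c i| + ‖h‖ / rho = atomN a rho x := by
  obtain ⟨c, hc⟩ := exists_cost_eq a hrho x
  exact ⟨c, x - ∑ i, c i • a i, by abel, hc⟩

lemma atomN_le_of_decomp {x : V} {c : ι → ℝ} {h : V} (hx : x = ∑ i, c i • a i + h) :
    atomN a rho x ≤ ∑ i, |c i| + ‖h‖ / rho := by
  have := atomN_le_cost a hrho x c
  unfold cost at this
  rwa [hx, add_sub_cancel_left, ← hx] at this

lemma atomN_add_le (x y : V) : atomN a rho (x + y) ≤ atomN a rho x + atomN a rho y := by
  obtain ⟨c, h, hx, hc⟩ := exists_decomp a hrho x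
  obtain ⟨d, k, hy, hd⟩ := exists_decomp a hrho y
  have h1 : x + y = ∑ i, (c i + d i) • a i + (h + k) := by
    rw [hx, hy]
    simp only [add_smul, Finset.sum_add_distrib]
    abel
  refine (atomN_le_of_decomp a hrho h1).trans ?_
  rw [← hc, ← hd]
  have h2 : ∑ i, |c i + d i| ≤ ∑ i, |c i| + ∑ i, |d i| := by
    rw [← Finset.sum_add_distrib]
    exact Finset.sum_le_sum fun i _ => abs_add_le _ _
  have h3 : ‖h + k‖ / rho ≤ ‖h‖ / rho + ‖k‖ / rho := by
    rw [← add_div]
    exact div_le_div_of_nonneg_right (norm_add_le _ _) hrho.le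
  linarith

lemma atomN_smul_le (r : ℝ) (x : V) : atomN a rho (r • x) ≤ |r| * atomN a rho x := by
  obtain ⟨c, h, hx, hc⟩ := exists_decomp a hrho x
  have h1 : r • x = ∑ i, (r * c i) • a i + r • h := by
    conv_lhs => rw [hx]
    rw [smul_add, Finset.smul_sum]
    simp only [smul_smul]
  refine (atomN_le_of_decomp a hrho h1).trans (le_of_eq ?_)
  rw [← hc, norm_smul, Real.norm_eq_abs, mul_add, Finset.mul_sum]
  simp only [abs_mul]
  ring

lemma atomN_smul (r : ℝ) (x : V) : atomN a rho (r • x) = |r| * atomN a rho x := by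
  refine le_antisymm (atomN_smul_le a hrho r x) ?_
  by_cases hr : r = 0
  · rw [hr, abs_zero, zero_mul]
    exact atomN_nonneg a hrho _
  · have h1 := atomN_smul_le a hrho r⁻¹ (r • x)
    rw [smul_smul, inv_mul_cancel₀ hr, one_smul, abs_inv] at h1
    have hpos : 0 < |r| := abs_pos.2 hr
    calc |r| * atomN a rho x ≤ |r| * (|r|⁻¹ * atomN a rho (r • x)) :=
          mul_le_mul_of_nonneg_left h1 hpos.le
      _ = atomN a rho (r • x) := by rw [← mul_assoc, mul_inv_cancel₀ hpos.ne', one_mul]

/-- comparison with the Euclidean norm, upper bound -/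
lemma atomN_le_norm (x : V) : atomN a rho x ≤ ‖x‖ / rho := by
  have h := atomN_le_of_decomp a hrho (x := x) (c := fun _ => 0) (h := x) (by simp)
  simpa using h

lemma atomN_atom_le [DecidableEq ι] (i : ι) : atomN a rho (a i) ≤ 1 := by
  have h := atomN_le_of_decomp a hrho (x := a i) (c := Pi.single i 1) (h := 0) (by
    rw [Finset.sum_eq_single i]
    · simp
    · intro j _ hj
      rw [Pi.single_eq_of_ne hj, zero_smul]
    · intro hi
      exact absurd (Finset.mem_univ i) hi)
  refine h.trans (le_of_eq ?_)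
  rw [norm_zero, zero_div, add_zero, Finset.sum_eq_single i]
  · simp
  · intro j _ hj
    rw [Pi.single_eq_of_ne hj, abs_zero]
  · intro hi
    exact absurd (Finset.mem_univ i) hi

/-- comparison with the Euclidean norm, lower bound -/
lemma norm_le_atomN {R : ℝ} (hR : ∀ i, ‖a i‖ ≤ R) (hrR : rho ≤ R) (x : V) :
    ‖x‖ ≤ R * atomN a rho x := by
  obtain ⟨c, h, hx, hc⟩ := exists_decomp a hrho x
  rw [← hc]
  have hRp : 0 ≤ R := hrho.le.trans hrR
  calc ‖x‖ = ‖∑ i, c i • a i + h‖ := by rw [← hx]
    _ ≤ ∑ i, ‖c i • a i‖ + ‖h‖ := (norm_add_le _ _).trans (add_le_add_left (norm_sum_le _ _) _)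
    _ ≤ ∑ i, R * |c i| + R * (‖h‖ / rho) := by
        refine add_le_add (Finset.sum_le_sum fun i _ => ?_) ?_
        · rw [norm_smul, Real.norm_eq_abs, mul_comm]
          exact mul_le_mul_of_nonneg_right (hR i) (abs_nonneg _)
        · rw [mul_div_assoc', le_div_iff₀ hrho, mul_comm]
          exact mul_le_mul_of_nonneg_right hrR (norm_nonneg _)
    _ = R * (∑ i, |c i| + ‖h‖ / rho) := by rw [← Finset.mul_sum, mul_add]

/-- the dual description: a linear functional bounded by `M` on the atoms and by `M / rho` in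
Euclidean norm has norm at most `M` -/
lemma abs_le_of_dual (f : V →ₗ[ℝ] ℝ) {M : ℝ} (hat : ∀ i, |f (a i)| ≤ M)
    (hE : ∀ v, |f v| ≤ M * (‖v‖ / rho)) (x : V) : |f x| ≤ M * atomN a rho x := by
  obtain ⟨c, h, hx, hc⟩ := exists_decomp a hrho x
  rw [← hc]
  calc |f x| = |∑ i, c i * f (a i) + f h| := by
        conv_lhs => rw [hx]
        rw [map_add, map_sum]
        simp only [map_smul, smul_eq_mul]
    _ ≤ ∑ i, |c i * f (a i)| + |f h| :=
        (abs_add_le _ _).trans (add_le_add_left (Finset.abs_sum_le_sum_abs _ _) _)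
    _ ≤ ∑ i, M * |c i| + M * (‖h‖ / rho) := by
        refine add_le_add (Finset.sum_le_sum fun i _ => ?_) (hE h)
        rw [abs_mul, mul_comm]
        exact mul_le_mul_of_nonneg_right (hat i) (abs_nonneg _)
    _ = M * (∑ i, |c i| + ‖h‖ / rho) := by rw [← Finset.mul_sum, mul_add]

omit hrho in
/-- A linear map into any normed space (given by norm data): it is enough to bound it on the atoms
and in Euclidean norm. -/
lemma map_le_of_atoms (hrho : 0 < rho) {W : Type*} [AddCommGroup W] [Module ℝ W] (D : NormData W)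
    (T : V →ₗ[ℝ] W) {M : ℝ} (hat : ∀ i, D.N (T (a i)) ≤ M)
    (hE : ∀ v, D.N (T v) ≤ M * (‖v‖ / rho)) (x : V) : D.N (T x) ≤ M * atomN a rho x := by
  obtain ⟨c, h, hx, hc⟩ := exists_decomp a hrho x
  rw [← hc]
  have hsum : ∀ s : Finset ι, D.N (∑ i ∈ s, c i • T (a i)) ≤ ∑ i ∈ s, |c i| * D.N (T (a i)) := by
    classical
    intro s
    induction s using Finset.induction_on with
    | empty => simp [D.zero]
    | insert i s hi ih =>
      rw [Finset.sum_insert hi, Finset.sum_insert hi]
      refine (D.add_le _ _).trans (add_le_add (le_of_eq (D.smul _ _)) ih)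
  calc D.N (T x) = D.N (∑ i, c i • T (a i) + T h) := by
        conv_lhs => rw [hx]
        rw [map_add, map_sum]
        simp only [map_smul]
    _ ≤ ∑ i, |c i| * D.N (T (a i)) + D.N (T h) :=
        (D.add_le _ _).trans (add_le_add_left (hsum _) _)
    _ ≤ ∑ i, M * |c i| + M * (‖h‖ / rho) := by
        refine add_le_add (Finset.sum_le_sum fun i _ => ?_) (hE h)
        rw [mul_comm]
        exact mul_le_mul_of_nonneg_right (hat i) (abs_nonneg _)
    _ = M * (∑ i, |c i| + ‖h‖ / rho) := by rw [← Finset.mul_sum, mul_add]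

end Atom

section AtomData

variable {V : Type*} [NormedAddCommGroup V] [NormedSpace ℝ V]
variable {ι : Type*} [Fintype ι]

/-- the atomic norm as norm data -/
noncomputable def atomData (a : ι → V) (rho : ℝ) (hrho : 0 < rho) : NormData V where
  N := atomN a rho
  add_le := atomN_add_le a hrho
  smul := atomN_smul a hrho
  pos x hx := by
    classical
    obtain ⟨R, hR⟩ : ∃ R, ∀ i, ‖a i‖ ≤ R := by
      refine ⟨∑ i, ‖a i‖, fun i => ?_⟩
      exact Finset.single_le_sum (f := fun i => ‖a i‖) (fun _ _ => norm_nonneg _)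
        (Finset.mem_univ i)
    have h := norm_le_atomN a hrho (R := max R rho) (fun i => (hR i).trans (le_max_left _ _))
      (le_max_right _ _) x
    have hx' : 0 < ‖x‖ := norm_pos_iff.2 hx
    by_contra hneg
    have : max R rho * atomN a rho x ≤ 0 :=
      mul_nonpos_of_nonneg_of_nonpos (hrho.le.trans (le_max_right _ _)) (not_lt.1 hneg)
    linarith

lemma atomData_N (a : ι → V) (rho : ℝ) (hrho : 0 < rho) (x : V) :
    (atomData a rho hrho).N x = atomN a rho x := rfl

/-- operator bound for the atomic norm: if `T` maps atoms to vectors of norm at most `M` and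
the Euclidean operator norm of `T` is at most `M` then `‖T‖ ≤ M`. -/
lemma atomN_map_le (a : ι → V) {rho : ℝ} (hrho : 0 < rho) (T : V →ₗ[ℝ] V) {M : ℝ}
    (hat : ∀ i, atomN a rho (T (a i)) ≤ M) (hE : ∀ v, ‖T v‖ ≤ M * ‖v‖) (x : V) :
    atomN a rho (T x) ≤ M * atomN a rho x := by
  refine map_le_of_atoms a hrho (atomData a rho hrho) T hat (fun v => ?_) x
  rw [atomData_N]
  refine (atomN_le_norm a hrho _).trans ?_
  rw [mul_div_assoc']
  exact div_le_div_of_nonneg_right (hE v) hrho.le

end AtomData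

end SPB87
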