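import Mathlib

/-!
# Schauder bases over `ℝ` or `ℂ`: Banach's theorem
-/

open Filter Topology

namespace SPB87K

variable {𝕜 : Type*} [RCLike 𝕜] {X : Type*} [NormedAddCommGroup X] [NormedSpace 𝕜 X]

/-- `e` is a Schauder basis of `X`: every `x` is the limit of `∑_{i<n} a i • e i` for exactly one
scalar sequence `a`. -/
def IsSchauderBasis (𝕜 : Type*) [RCLike 𝕜] {X : Type*} [NormedAddCommGroup X]
    [NormedSpace 𝕜 X] (e : ℕ → X) : Prop :=
  ∀ x, ∃! a : ℕ → 𝕜, Tendsto (fun n => ∑ i ∈ Finset.range n, a i • e i) atTop (𝓝 x)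

namespace IsSchauderBasis

variable {e : ℕ → X} (h : IsSchauderBasis 𝕜 e)

/-- the coefficients -/
noncomputable def coef (x : X) : ℕ → 𝕜 := (h x).choose

lemma coef_tendsto (x : X) :
    Tendsto (fun n => ∑ i ∈ Finset.range n, h.coef x i • e i) atTop (𝓝 x) :=
  (h x).choose_spec.1

lemma coef_unique (x : X) (a : ℕ → 𝕜)
    (ha : Tendsto (fun n => ∑ i ∈ Finset.range n, a i • e i) atTop (𝓝 x)) : a = h.coef x :=
  (h x).choose_spec.2 a ha

lemma coef_add (x y : X) : h.coef (x + y) = h.coef x + h.coef y := by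
  symm
  apply h.coef_unique
  have := (h.coef_tendsto x).add (h.coef_tendsto y)
  refine this.congr fun n => ?_
  rw [← Finset.sum_add_distrib]
  exact Finset.sum_congr rfl fun i _ => by rw [Pi.add_apply, add_smul]

lemma coef_smul (c : 𝕜) (x : X) : h.coef (c • x) = c • h.coef x := by
  symm
  apply h.coef_unique
  have := (h.coef_tendsto x).const_smul c
  refine this.congr fun n => ?_
  rw [Finset.smul_sum]
  exact Finset.sum_congr rfl fun i _ => by rw [Pi.smul_apply, smul_smul, smul_eq_mul]

lemma coef_basis (j : ℕ) : h.coef (e j) = Pi.single j 1 := by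
  symm
  apply h.coef_unique
  apply tendsto_const_nhds.congr'
  filter_upwards [eventually_gt_atTop j] with n hn
  rw [Finset.sum_eq_single j]
  · simp
  · intro b _ hb
    rw [Pi.single_eq_of_ne hb, zero_smul]
  · intro hj
    exact absurd (Finset.mem_range.2 hn) hj

include h in
lemma ne_zero (j : ℕ) : e j ≠ 0 := by
  intro h0
  have h1 := h.coef_basis j
  have h2 : (0 : ℕ → 𝕜) = h.coef (e j) := by
    apply h.coef_unique
    rw [h0]
    simp
  rw [h1] at h2
  have := congrFun h2 j
  simp at this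

/-- the truncated sums -/
noncomputable def psum (x : X) (n : ℕ) : X := ∑ i ∈ Finset.range n, h.coef x i • e i

lemma psum_bdd (x : X) : ∃ C, ∀ n, ‖h.psum x n‖ ≤ C := by
  obtain ⟨C, hC⟩ := (Metric.isBounded_range_of_tendsto _ (h.coef_tendsto x)).exists_norm_le
  exact ⟨C, fun n => hC _ ⟨n, rfl⟩⟩

/-- the map `x ↦ (truncated sums of x)` into `ℓ^∞(ℕ, X)` -/
noncomputable def toLinfty : X →ₗ[𝕜] lp (fun _ : ℕ => X) ⊤ where
  toFun x := ⟨h.psum x, by
    obtain ⟨C, hC⟩ := h.psum_bdd x
    exact memℓp_infty ⟨C, by rintro _ ⟨n, rfl⟩; exact hC n⟩⟩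
  map_add' x y := by
    ext n
    simp only [lp.coeFn_add, Pi.add_apply, psum, h.coef_add, add_smul,
      Finset.sum_add_distrib]
  map_smul' c x := by
    ext n
    simp only [lp.coeFn_smul, Pi.smul_apply, psum, h.coef_smul, RingHom.id_apply,
      Finset.smul_sum, smul_smul, smul_eq_mul]

lemma toLinfty_apply (x : X) (n : ℕ) : h.toLinfty x n = h.psum x n := rfl

lemma toLinfty_continuous [CompleteSpace X] : Continuous h.toLinfty := by
  apply LinearMap.continuous_of_seq_closed_graph
  intro u x y hu hy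
  -- pointwise convergence
  have hpt : ∀ n, Tendsto (fun k => h.psum (u k) n) atTop (𝓝 (y n)) := by
    intro n
    have hc : Continuous (fun z : lp (fun _ : ℕ => X) ⊤ => z n) :=
      (lp.evalCLM 𝕜 (fun _ : ℕ => X) ⊤ n).continuous
    exact (hc.tendsto y).comp hy
  -- `y n → x`
  have hlim : Tendsto (fun n => (y : ℕ → X) n) atTop (𝓝 x) := by
    rw [Metric.tendsto_atTop]
    intro ε hε
    obtain ⟨k, hk1, hk2⟩ : ∃ k, dist (u k) x < ε / 3 ∧ dist (h.toLinfty (u k)) y < ε / 3 := by
      have e1 := (Metric.tendsto_atTop.1 hu) (ε / 3) (by positivity)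
      have e2 := (Metric.tendsto_atTop.1 hy) (ε / 3) (by positivity)
      obtain ⟨N1, h1⟩ := e1
      obtain ⟨N2, h2⟩ := e2
      exact ⟨max N1 N2, h1 _ (le_max_left _ _), h2 _ (le_max_right _ _)⟩
    obtain ⟨N, hN⟩ := (Metric.tendsto_atTop.1 (h.coef_tendsto (u k))) (ε / 3) (by positivity)
    refine ⟨N, fun n hn => ?_⟩
    have h3 : dist ((y : ℕ → X) n) (h.psum (u k) n) < ε / 3 := by
      rw [dist_comm, dist_eq_norm]
      have : ‖(h.toLinfty (u k) - y) n‖ ≤ ‖h.toLinfty (u k) - y‖ :=
        lp.norm_apply_le_norm ENNReal.top_ne_zero _ n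
      rw [dist_eq_norm] at hk2
      calc ‖h.psum (u k) n - y n‖ = ‖(h.toLinfty (u k) - y) n‖ := by
            rw [lp.coeFn_sub, Pi.sub_apply, toLinfty_apply]
        _ ≤ _ := this
        _ < _ := hk2
    calc dist ((y : ℕ → X) n) x ≤ dist ((y : ℕ → X) n) (h.psum (u k) n)
          + dist (h.psum (u k) n) (u k) + dist (u k) x := dist_triangle4 _ _ _ _
      _ < ε / 3 + ε / 3 + ε / 3 := by
          have := hN n hn
          exact add_lt_add (add_lt_add h3 this) hk1
      _ = ε := by ring
  -- differences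
  have hdiff : ∀ n, ∃ a : 𝕜, (y : ℕ → X) (n + 1) - y n = a • e n := by
    intro n
    have hcl : IsClosed ((Submodule.span 𝕜 {e n} : Submodule 𝕜 X) : Set X) :=
      Submodule.closed_of_finiteDimensional _
    have h1 : Tendsto (fun k => h.psum (u k) (n + 1) - h.psum (u k) n) atTop
        (𝓝 (y (n + 1) - y n)) := (hpt (n + 1)).sub (hpt n)
    have h2 : (y : ℕ → X) (n + 1) - y n ∈ (Submodule.span 𝕜 {e n} : Submodule 𝕜 X) := by
      refine hcl.mem_of_tendsto h1 (Eventually.of_forall fun k => ?_)
      have : h.psum (u k) (n + 1) - h.psum (u k) n = h.coef (u k) n • e n := by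
        simp only [psum, Finset.sum_range_succ]
        abel
      simp only [this]
      exact Submodule.smul_mem _ _ (Submodule.mem_span_singleton_self _)
    obtain ⟨a, ha⟩ := Submodule.mem_span_singleton.1 h2
    exact ⟨a, ha.symm⟩
  choose a ha using hdiff
  have h0 : (y : ℕ → X) 0 = 0 := by
    have := hpt 0
    simp only [psum, Finset.range_zero, Finset.sum_empty] at this
    exact tendsto_nhds_unique tendsto_const_nhds this |>.symm
  have hsum : ∀ n, (y : ℕ → X) n = ∑ i ∈ Finset.range n, a i • e i := by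
    intro n
    induction n with
    | zero => simp [h0]
    | succ n ih => rw [Finset.sum_range_succ, ← ih, ← ha n]; abel
  have ha' : a = h.coef x := by
    apply h.coef_unique
    exact hlim.congr hsum
  ext n
  rw [toLinfty_apply, hsum n, ha']
  rfl

include h in
/-- Banach's theorem: the coefficient functionals of a Schauder basis of a Banach space are
continuous. -/
theorem exists_schauderBasis [CompleteSpace X] :
    ∃ b : SchauderBasis 𝕜 X, (b : ℕ → X) = e := by
  have hcont := h.toLinfty_continuous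
  set T : X →L[𝕜] lp (fun _ : ℕ => X) ⊤ := ⟨h.toLinfty, hcont⟩ with hT
  have hbd : ∀ x n, ‖h.psum x n‖ ≤ ‖T‖ * ‖x‖ := by
    intro x n
    calc ‖h.psum x n‖ = ‖T x n‖ := rfl
      _ ≤ ‖T x‖ := lp.norm_apply_le_norm ENNReal.top_ne_zero _ n
      _ ≤ _ := T.le_opNorm x
  let c : ℕ → StrongDual 𝕜 X := fun n => LinearMap.mkContinuous
    { toFun := fun x => h.coef x n
      map_add' := fun x y => by rw [h.coef_add, Pi.add_apply]
      map_smul' := fun r x => by rw [h.coef_smul, Pi.smul_apply, RingHom.id_apply] }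
    (2 * ‖T‖ / ‖e n‖) (by
      intro x
      have hpos : 0 < ‖e n‖ := norm_pos_iff.2 (h.ne_zero n)
      have h1 : h.coef x n • e n = h.psum x (n + 1) - h.psum x n := by
        simp only [psum, Finset.sum_range_succ]
        abel
      have h2 : ‖h.coef x n‖ * ‖e n‖ ≤ 2 * ‖T‖ * ‖x‖ := by
        rw [← norm_smul, h1]
        calc _ ≤ ‖h.psum x (n + 1)‖ + ‖h.psum x n‖ := norm_sub_le _ _
          _ ≤ ‖T‖ * ‖x‖ + ‖T‖ * ‖x‖ := add_le_add (hbd _ _) (hbd _ _)
          _ = _ := by ring
      rw [div_mul_eq_mul_div, le_div_iff₀ hpos]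
      exact h2)
  refine ⟨{ basis := e, coord := c, ortho := ?_, expansion := ?_ }, rfl⟩
  · intro i j
    change h.coef (e j) i = _
    rw [h.coef_basis]
    simp [Pi.single_apply]
  · intro x
    rw [HasSum, SummationFilter.conditional_filter_eq_map_range, tendsto_map'_iff]
    exact h.coef_tendsto x

end IsSchauderBasis

/-- Conversely a Schauder basis with continuous functionals has unique expansions. -/
theorem isSchauderBasis_of (b : SchauderBasis 𝕜 X) : IsSchauderBasis 𝕜 (b : ℕ → X) := by
  intro x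
  refine ⟨fun i => b.coord i x, ?_, ?_⟩
  · have := SchauderBasis.tendsto_proj b x
    simpa using this
  · intro a ha
    ext j
    have h1 : Tendsto (fun n => b.coord j (∑ i ∈ Finset.range n, a i • b i)) atTop
        (𝓝 (b.coord j x)) := ((b.coord j).continuous.tendsto x).comp ha
    have h2 : (fun n => b.coord j (∑ i ∈ Finset.range n, a i • b i)) =ᶠ[atTop] fun _ => a j := by
      filter_upwards [eventually_gt_atTop j] with n hn
      rw [map_sum, Finset.sum_eq_single j]
      · rw [map_smul, b.ortho]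
        simp
      · intro i _ hi
        rw [map_smul, b.ortho]
        simp [hi.symm]
      · intro hj
        exact absurd (Finset.mem_range.2 hn) hj
    exact tendsto_nhds_unique (tendsto_const_nhds.congr' h2.symm) h1

end SPB87K
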