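import Pool.Agent.SPB.Defs

/-!
# Counting Hoeffding bounds for balanced sign functions
-/

open Finset

set_option linter.unusedSectionVars false

namespace SPB87

open SPB (sg)

lemma sg_not (b : Bool) : sg (!b) = - sg b := by cases b <;> simp [sg]
lemma sg_mul_self (b : Bool) : sg b * sg b = 1 := by cases b <;> simp [sg]
lemma sg_eq (b : Bool) : sg b = 1 ∨ sg b = -1 := by cases b <;> simp [sg]
lemma abs_sg (b : Bool) : |sg b| = 1 := by cases b <;> simp [sg]

/-- a balanced sign function -/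
structure Balanced {Ω : Type*} [Fintype Ω] (χ : Ω → ℝ) : Prop where
  sign : ∀ ω, χ ω = 1 ∨ χ ω = -1
  sum : ∑ ω, χ ω = 0

/-- a sign function which changes sign under some bijection is balanced -/
lemma Balanced.of_flip {Ω : Type*} [Fintype Ω] {χ : Ω → ℝ} (h : ∀ ω, χ ω = 1 ∨ χ ω = -1)
    (σ : Ω ≃ Ω) (hσ : ∀ ω, χ (σ ω) = - χ ω) : Balanced χ := by
  refine ⟨h, ?_⟩
  have h1 : ∑ ω, χ ω = ∑ ω, χ (σ ω) := (Equiv.sum_comp σ χ).symm
  simp only [hσ, sum_neg_distrib] at h1
  linarith

lemma Balanced.mgf {Ω : Type*} [Fintype Ω] {χ : Ω → ℝ} (h : Balanced χ) (l : ℝ) :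
    ∑ ω, Real.exp (l * χ ω) = Fintype.card Ω * Real.cosh l := by
  have h1 : ∀ ω, Real.exp (l * χ ω) = Real.cosh l + χ ω * Real.sinh l := by
    intro ω
    rcases h.sign ω with h2 | h2 <;> rw [h2]
    · rw [mul_one, one_mul, Real.cosh_add_sinh]
    · rw [mul_neg_one, neg_one_mul, ← sub_eq_add_neg, Real.cosh_sub_sinh]
  simp only [h1, sum_add_distrib, sum_const, card_univ, nsmul_eq_mul, ← sum_mul, h.sum, zero_mul,
    add_zero]

lemma Balanced.mgf_pi {Ω : Type*} [Fintype Ω] {χ : Ω → ℝ} (h : Balanced χ) {ι : Type*}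
    [Fintype ι] [DecidableEq ι] (l : ℝ) :
    ∑ ω : ι → Ω, Real.exp (l * ∑ r, χ (ω r)) ≤
      (Fintype.card Ω : ℝ) ^ (Fintype.card ι) * Real.exp (Fintype.card ι * (l ^ 2 / 2)) := by
  have h1 : ∀ ω : ι → Ω, Real.exp (l * ∑ r, χ (ω r)) = ∏ r, Real.exp (l * χ (ω r)) := by
    intro ω
    rw [mul_sum, Real.exp_sum]
  have h2 : ∏ _r : ι, ∑ w : Ω, Real.exp (l * χ w) = ∑ ω : ι → Ω, ∏ r, Real.exp (l * χ (ω r)) := by
    rw [prod_univ_sum, Fintype.piFinset_univ]
  simp only [h1]
  rw [← h2, prod_const, card_univ, h.mgf, mul_pow]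
  refine mul_le_mul_of_nonneg_left ?_ (by positivity)
  rw [Real.exp_nat_mul]
  exact pow_le_pow_left₀ (Real.cosh_pos l).le (Real.cosh_le_exp_half_sq l) _

/-- one-sided Hoeffding bound by counting -/
lemma Balanced.card_ge {Ω : Type*} [Fintype Ω] {χ : Ω → ℝ} (h : Balanced χ) {ι : Type*}
    [Fintype ι] [DecidableEq ι] (hι : 0 < Fintype.card ι) {t : ℝ} (ht : 0 ≤ t) :
    ((univ.filter fun ω : ι → Ω => t ≤ ∑ r, χ (ω r)).card : ℝ) ≤
      (Fintype.card Ω : ℝ) ^ (Fintype.card ι) * Real.exp (-(t ^ 2 / (2 * Fintype.card ι))) := by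
  set m : ℝ := (Fintype.card ι : ℝ) with hm
  have hmpos : 0 < m := Nat.cast_pos.2 hι
  set l : ℝ := t / m with hl
  have hl0 : 0 ≤ l := by positivity
  have h1 := h.mgf_pi (ι := ι) l
  have h2 : ((univ.filter fun ω : ι → Ω => t ≤ ∑ r, χ (ω r)).card : ℝ) * Real.exp (l * t) ≤
      ∑ ω : ι → Ω, Real.exp (l * ∑ r, χ (ω r)) := by
    rw [← nsmul_eq_mul, ← sum_const]
    refine (sum_le_sum fun ω hω => ?_).trans
      (sum_le_sum_of_subset_of_nonneg (filter_subset _ _) fun _ _ _ => (Real.exp_pos _).le)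
    exact Real.exp_le_exp.2 (mul_le_mul_of_nonneg_left (mem_filter.1 hω).2 hl0)
  have h3 := h2.trans h1
  have h4 : Real.exp (-(t ^ 2 / (2 * m))) * Real.exp (l * t) = Real.exp (m * (l ^ 2 / 2)) := by
    rw [← Real.exp_add]
    congr 1
    rw [hl]
    field_simp
    ring
  rw [← h4, ← mul_assoc] at h3
  exact le_of_mul_le_mul_right h3 (Real.exp_pos _)

/-- two-sided Hoeffding bound by counting -/
lemma Balanced.card_abs_gt {Ω : Type*} [Fintype Ω] {χ : Ω → ℝ} (h : Balanced χ) {ι : Type*}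
    [Fintype ι] [DecidableEq ι] (hι : 0 < Fintype.card ι) {t : ℝ} (ht : 0 ≤ t) :
    ((univ.filter fun ω : ι → Ω => t < |∑ r, χ (ω r)|).card : ℝ) ≤
      2 * (Fintype.card Ω : ℝ) ^ (Fintype.card ι) *
        Real.exp (-(t ^ 2 / (2 * Fintype.card ι))) := by
  classical
  have hneg : Balanced (fun ω => - χ ω) := by
    refine ⟨fun ω => ?_, by rw [sum_neg_distrib, h.sum, neg_zero]⟩
    rcases h.sign ω with h2 | h2
    · right; rw [h2]
    · left; rw [h2, neg_neg]
  have h1 := h.card_ge (ι := ι) hι ht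
  have h2 := hneg.card_ge (ι := ι) hι ht
  have h3 : (univ.filter fun ω : ι → Ω => t < |∑ r, χ (ω r)|) ⊆
      (univ.filter fun ω : ι → Ω => t ≤ ∑ r, χ (ω r)) ∪
      (univ.filter fun ω : ι → Ω => t ≤ ∑ r, - χ (ω r)) := by
    intro ω hω
    rw [mem_filter] at hω
    rw [mem_union, mem_filter, mem_filter]
    rcases lt_abs.1 hω.2 with h4 | h4
    · left; exact ⟨mem_univ _, h4.le⟩
    · right
      refine ⟨mem_univ _, ?_⟩
      rw [sum_neg_distrib]
      exact h4.le
  have h4 : ((univ.filter fun ω : ι → Ω => t < |∑ r, χ (ω r)|).card : ℝ) ≤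
      ((univ.filter fun ω : ι → Ω => t ≤ ∑ r, χ (ω r)).card : ℝ) +
      ((univ.filter fun ω : ι → Ω => t ≤ ∑ r, - χ (ω r)).card : ℝ) := by
    exact_mod_cast (card_le_card h3).trans (card_union_le _ _)
  linarith

section flip

variable {κ : Type*} [Fintype κ] [DecidableEq κ]

/-- flip one coordinate -/
def flipEquiv (j : κ) : (κ → Bool) ≃ (κ → Bool) where
  toFun e := Function.update e j (!(e j))
  invFun e := Function.update e j (!(e j))
  left_inv e := by
    ext x
    by_cases h : x = j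
    · subst h; simp
    · simp [h]
  right_inv e := by
    ext x
    by_cases h : x = j
    · subst h; simp
    · simp [h]

lemma flip_same (j : κ) (e : κ → Bool) : sg (flipEquiv j e j) = - sg (e j) := by
  simp [flipEquiv, sg_not]

lemma flip_ne {j l : κ} (h : l ≠ j) (e : κ → Bool) : flipEquiv j e l = e l := by
  simp [flipEquiv, h]

lemma sg_mul_sign (b c : Bool) : sg b * sg c = 1 ∨ sg b * sg c = -1 := by
  cases b <;> cases c <;> simp [sg]

lemma sg_mul4_sign (a b c d : Bool) :
    sg a * sg b * sg c * sg d = 1 ∨ sg a * sg b * sg c * sg d = -1 := by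
  cases a <;> cases b <;> cases c <;> cases d <;> simp [sg]

/-- products of two different coordinates are balanced -/
lemma balanced_two {l l' : κ} (h : l ≠ l') :
    Balanced (fun e : κ → Bool => sg (e l) * sg (e l')) := by
  refine Balanced.of_flip (fun e => sg_mul_sign _ _) (flipEquiv l) fun e => ?_
  rw [flip_same, flip_ne h.symm]
  ring

/-- a quadruple of coordinates which cancels in pairs -/
def Paired (a b c d : κ) : Prop := (a = b ∧ c = d) ∨ (a = c ∧ b = d) ∨ (a = d ∧ b = c)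

instance (a b c d : κ) : Decidable (Paired a b c d) := by unfold Paired; infer_instance

lemma paired_prod {a b c d : κ} (h : Paired a b c d) (e : κ → Bool) :
    sg (e a) * sg (e b) * sg (e c) * sg (e d) = 1 := by
  have h1 := sg_mul_self (e a)
  rcases h with ⟨rfl, rfl⟩ | ⟨rfl, rfl⟩ | ⟨rfl, rfl⟩
  · have h2 := sg_mul_self (e c)
    rw [h1, one_mul, h2]
  · have h2 := sg_mul_self (e b)
    calc _ = (sg (e a) * sg (e a)) * (sg (e b) * sg (e b)) := by ring
      _ = 1 := by rw [h1, h2, one_mul]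
  · have h2 := sg_mul_self (e b)
    calc _ = (sg (e a) * sg (e a)) * (sg (e b) * sg (e b)) := by ring
      _ = 1 := by rw [h1, h2, one_mul]

/-- unpaired quadruples give balanced products -/
lemma balanced_four {a b c d : κ} (h : ¬ Paired a b c d) :
    Balanced (fun e : κ → Bool => sg (e a) * sg (e b) * sg (e c) * sg (e d)) := by
  have hs : ∀ e : κ → Bool, sg (e a) * sg (e b) * sg (e c) * sg (e d) = 1 ∨
      sg (e a) * sg (e b) * sg (e c) * sg (e d) = -1 := fun e => sg_mul4_sign _ _ _ _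
  simp only [Paired, not_or, not_and] at h
  obtain ⟨h1, h2, h3⟩ := h
  by_cases hab : a = b
  · have hcd : c ≠ d := h1 hab
    subst hab
    refine Balanced.of_flip hs (flipEquiv c) fun e => ?_
    by_cases hac : a = c
    · subst hac
      rw [flip_same, flip_ne hcd.symm]
      ring
    · rw [flip_same, flip_ne hcd.symm, flip_ne hac]
      ring
  · by_cases hac : a = c
    · have hbd : b ≠ d := h2 hac
      subst hac
      refine Balanced.of_flip hs (flipEquiv b) fun e => ?_
      rw [flip_same, flip_ne hab, flip_ne hbd.symm]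
      ring
    · by_cases had : a = d
      · have hbc : b ≠ c := h3 had
        subst had
        refine Balanced.of_flip hs (flipEquiv b) fun e => ?_
        rw [flip_same, flip_ne hab, flip_ne hbc.symm]
        ring
      · refine Balanced.of_flip hs (flipEquiv a) fun e => ?_
        rw [flip_same, flip_ne (Ne.symm hab), flip_ne (Ne.symm hac), flip_ne (Ne.symm had)]
        ring

end flip

/-- the second moment of a sum of independent balanced signs -/
lemma Balanced.second_moment {Ω : Type*} [Fintype Ω] {χ : Ω → ℝ} (h : Balanced χ) {ι : Type*}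
    [Fintype ι] [DecidableEq ι] :
    ∑ ω : ι → Ω, (∑ r, χ (ω r)) ^ 2 = Fintype.card ι * Fintype.card (ι → Ω) := by
  have hsq : ∀ w, χ w * χ w = 1 := by
    intro w
    rcases h.sign w with h1 | h1 <;> rw [h1] <;> norm_num
  have hcross : ∀ r r' : ι, r ≠ r' → ∑ ω : ι → Ω, χ (ω r) * χ (ω r') = 0 := by
    intro r r' hr
    have h1 : ∀ ω : ι → Ω, χ (ω r) * χ (ω r') =
        ∏ k, ((if k = r then χ (ω k) else 1) * (if k = r' then χ (ω k) else 1)) := by
      intro ω
      rw [prod_mul_distrib, prod_ite_eq' univ r, prod_ite_eq' univ r']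
      simp
    simp only [h1]
    have h2 := prod_univ_sum (fun _ : ι => (univ : Finset Ω))
      (fun k w => (if k = r then χ w else 1) * (if k = r' then χ w else 1))
    rw [Fintype.piFinset_univ] at h2
    rw [← h2]
    apply prod_eq_zero (mem_univ r)
    simp [hr, h.sum]
  have h3 : ∀ ω : ι → Ω, (∑ r, χ (ω r)) ^ 2 = ∑ r, ∑ r', χ (ω r) * χ (ω r') := by
    intro ω
    rw [sq, sum_mul_sum]
  simp only [h3]
  rw [sum_comm]
  have h4 : ∀ r : ι, ∑ ω : ι → Ω, ∑ r', χ (ω r) * χ (ω r') = Fintype.card (ι → Ω) := by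
    intro r
    rw [sum_comm, sum_eq_single r]
    · simp [hsq]
    · intro r' _ hr
      exact hcross r r' hr.symm
    · intro hr
      exact absurd (mem_univ r) hr
  rw [sum_congr rfl fun r _ => h4 r, sum_const, card_univ, nsmul_eq_mul]

/-- Markov's inequality, by counting -/
lemma markov_count {Ω : Type*} [Fintype Ω] (P : Ω → Prop) [DecidablePred P] (Z : Ω → ℝ)
    (hZ : ∀ ω, 0 ≤ Z ω) {a S : ℝ} (ha : ∀ ω, P ω → a ≤ Z ω) (hS : ∑ ω, Z ω ≤ S) :
    ((univ.filter P).card : ℝ) * a ≤ S := by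
  refine le_trans ?_ hS
  rw [← nsmul_eq_mul, ← sum_const]
  exact (sum_le_sum fun ω hω => ha ω (mem_filter.1 hω).2).trans
    (sum_le_sum_of_subset_of_nonneg (filter_subset _ _) fun ω _ _ => hZ ω)

/-- union bound over a finite family of bad events -/
lemma card_exists_le {Ω : Type*} [Fintype Ω] {I : Type*} [Fintype I] (bad : I → Ω → Prop)
    [∀ i, DecidablePred (bad i)] [DecidablePred fun ω => ∃ i, bad i ω] {B : ℝ}
    (h : ∀ i, ((univ.filter (bad i)).card : ℝ) ≤ B) :
    ((univ.filter fun ω => ∃ i, bad i ω).card : ℝ) ≤ Fintype.card I * B := by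
  classical
  have h1 : (univ.filter fun ω => ∃ i, bad i ω) ⊆ univ.biUnion fun i => univ.filter (bad i) := by
    intro ω hω
    rw [mem_filter] at hω
    obtain ⟨i, hi⟩ := hω.2
    rw [mem_biUnion]
    exact ⟨i, mem_univ _, mem_filter.2 ⟨mem_univ _, hi⟩⟩
  calc ((univ.filter fun ω => ∃ i, bad i ω).card : ℝ) ≤
        ((univ.biUnion fun i => univ.filter (bad i)).card : ℝ) := by exact_mod_cast card_le_card h1
    _ ≤ ∑ i, ((univ.filter (bad i)).card : ℝ) := by exact_mod_cast card_biUnion_le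
    _ ≤ ∑ _i : I, B := sum_le_sum fun i _ => h i
    _ = Fintype.card I * B := by rw [sum_const, card_univ, nsmul_eq_mul]

end SPB87
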