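import Mathlib
import Pool.Agent.Lib_helper87.SPB.Bases

/-!
# `ℓ¹`-sums of finite-dimensional spaces: strict pi-bases and local operators of a Schauder basis
-/

open Filter Topology

set_option linter.unusedSectionVars false

namespace SPB87

variable {E : ℕ → Type*} [∀ k, NormedAddCommGroup (E k)] [∀ k, NormedSpace ℝ (E k)]

/-- norms in an `ℓ¹`-sum -/
lemma l1_hasSum_norm (x : lp E 1) : HasSum (fun i => ‖x i‖) ‖x‖ := by
  have := lp.hasSum_norm (p := 1) (by simp) x
  simpa using this

lemma l1_norm_eq (x : lp E 1) : ‖x‖ = ∑' i, ‖x i‖ := (l1_hasSum_norm x).tsum_eq.symm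

lemma l1_summable (x : lp E 1) : Summable (fun i => ‖x i‖) := (l1_hasSum_norm x).summable

lemma memlp_one_of_summable {f : ∀ i, E i} (h : Summable fun i => ‖f i‖) : Memℓp f 1 := by
  apply memℓp_gen
  simpa using h

/-- block diagonal operators -/
noncomputable def diag (T : ∀ j, E j →L[ℝ] E j) (M : ℝ) (hM : ∀ j, ‖T j‖ ≤ M) :
    lp E 1 →L[ℝ] lp E 1 :=
  LinearMap.mkContinuous
    { toFun := fun x => ⟨fun j => T j (x j), by
        apply memlp_one_of_summable
        refine Summable.of_nonneg_of_le (fun _ => norm_nonneg _) (fun j => ?_)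
          ((l1_summable x).mul_left M)
        exact ((T j).le_opNorm _).trans (mul_le_mul_of_nonneg_right (hM j) (norm_nonneg _))⟩
      map_add' := fun x y => by
        ext j
        change T j ((x + y : lp E 1) j) = T j (x j) + T j (y j)
        rw [lp.coeFn_add, Pi.add_apply, map_add]
      map_smul' := fun c x => by
        ext j
        change T j ((c • x : lp E 1) j) = c • T j (x j)
        rw [lp.coeFn_smul, Pi.smul_apply, map_smul] } M (by
      intro x
      rw [l1_norm_eq, l1_norm_eq, ← tsum_mul_left]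
      refine Summable.tsum_le_tsum (fun j => ?_) ?_ ((l1_summable x).mul_left M)
      · exact ((T j).le_opNorm _).trans (mul_le_mul_of_nonneg_right (hM j) (norm_nonneg _))
      · refine Summable.of_nonneg_of_le (fun _ => norm_nonneg _) (fun j => ?_)
          ((l1_summable x).mul_left M)
        exact ((T j).le_opNorm _).trans (mul_le_mul_of_nonneg_right (hM j) (norm_nonneg _)))

@[simp] lemma diag_apply (T : ∀ j, E j →L[ℝ] E j) (M : ℝ) (hM : ∀ j, ‖T j‖ ≤ M) (x : lp E 1)
    (j : ℕ) : (diag T M hM x) j = T j (x j) := rfl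

lemma norm_diag_le (T : ∀ j, E j →L[ℝ] E j) (M : ℝ) (hM : ∀ j, ‖T j‖ ≤ M) :
    ‖diag T M hM‖ ≤ M :=
  LinearMap.mkContinuous_norm_le _ ((norm_nonneg (T 0)).trans (hM 0)) _

section Strict

variable [∀ k, FiniteDimensional ℝ (E k)]

/-- the number of vectors of the strict `π`-basis used in block `j` at time `n` -/
noncomputable def blkIdx (E : ℕ → Type*) [∀ k, NormedAddCommGroup (E k)]
    [∀ k, NormedSpace ℝ (E k)] (n j : ℕ) : ℕ :=
  min (Module.finrank ℝ (E j)) (n - ∑ i ∈ Finset.range j, Module.finrank ℝ (E i))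

lemma blkIdx_mono {n m : ℕ} (h : n ≤ m) (j : ℕ) : blkIdx E n j ≤ blkIdx E m j :=
  min_le_min le_rfl (Nat.sub_le_sub_right h _)

lemma blkIdx_le (n j : ℕ) : blkIdx E n j ≤ Module.finrank ℝ (E j) := min_le_left _ _

lemma blkIdx_sum (n K : ℕ) :
    ∑ j ∈ Finset.range K, blkIdx E n j = min n (∑ i ∈ Finset.range K, Module.finrank ℝ (E i)) := by
  induction K with
  | zero => simp
  | succ K ih =>
    rw [Finset.sum_range_succ, ih, Finset.sum_range_succ, blkIdx]
    omega

lemma le_sum_finrank (hpos : ∀ k, 0 < Module.finrank ℝ (E k)) (K : ℕ) :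
    K ≤ ∑ i ∈ Finset.range K, Module.finrank ℝ (E i) := by
  induction K with
  | zero => simp
  | succ K ih =>
    rw [Finset.sum_range_succ]
    have := hpos K
    omega

lemma blkIdx_eq_zero (hpos : ∀ k, 0 < Module.finrank ℝ (E k)) {n j : ℕ} (h : n ≤ j) :
    blkIdx E n j = 0 := by
  have := le_sum_finrank hpos j
  rw [blkIdx]
  omega

lemma blkIdx_eq_finrank {n j : ℕ}
    (h : ∑ i ∈ Finset.range (j + 1), Module.finrank ℝ (E i) ≤ n) :
    blkIdx E n j = Module.finrank ℝ (E j) := by
  rw [Finset.sum_range_succ] at h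
  rw [blkIdx]
  omega

/-- **Gluing strict flags.** If every finite-dimensional `E k` has a strict flag of projections of
norm at most `lam`, then the `ℓ¹`-sum has a strict `π_λ`-basis. -/
theorem exists_isStrictPiBasis (hpos : ∀ k, 0 < Module.finrank ℝ (E k)) (lam : ℝ)
    (v : ∀ k, ℕ → (E k →L[ℝ] E k))
    (hrank : ∀ k i, i ≤ Module.finrank ℝ (E k) →
      Module.finrank ℝ (LinearMap.range (v k i : E k →ₗ[ℝ] E k)) = i)
    (hnest : ∀ k i i', i ≤ i' → i' ≤ Module.finrank ℝ (E k) → (v k i').comp (v k i) = v k i)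
    (htop : ∀ k, v k (Module.finrank ℝ (E k)) = ContinuousLinearMap.id ℝ (E k))
    (hnorm : ∀ k i, i ≤ Module.finrank ℝ (E k) → ‖v k i‖ ≤ lam) :
    ∃ u : ℕ → lp E 1 →L[ℝ] lp E 1, IsStrictPiBasis u ∧ ∀ n, ‖u n‖ ≤ lam := by
  have hM : ∀ n j, ‖v j (blkIdx E n j)‖ ≤ lam := fun n j => hnorm j _ (blkIdx_le n j)
  have hzero : ∀ k, v k 0 = 0 := by
    intro k
    have h := hrank k 0 (Nat.zero_le _)
    have h2 : LinearMap.range (v k 0 : E k →ₗ[ℝ] E k) = ⊥ := Submodule.finrank_eq_zero.1 h
    have h3 : (v k 0 : E k →ₗ[ℝ] E k) = 0 := LinearMap.range_eq_bot.1 h2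
    ext x
    exact congrArg (fun f : E k →ₗ[ℝ] E k => f x) h3
  refine ⟨fun n => diag (fun j => v j (blkIdx E n j)) lam (hM n), ⟨?_, ?_, ?_, ?_⟩,
    fun n => norm_diag_le _ _ _⟩
  · intro n _
    ext x j
    simp only [ContinuousLinearMap.comp_apply, diag_apply]
    rw [← ContinuousLinearMap.comp_apply, hnest j _ _ le_rfl (blkIdx_le n j)]
  · intro n _
    -- the range is the product of the ranges
    set T : lp E 1 →L[ℝ] lp E 1 := diag (fun j => v j (blkIdx E n j)) lam (hM n) with hT
    let F : LinearMap.range (T : lp E 1 →ₗ[ℝ] lp E 1) →ₗ[ℝ]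
        ∀ j : Fin n, LinearMap.range (v j (blkIdx E n j) : E j →ₗ[ℝ] E j) :=
      { toFun := fun y j => ⟨(y : lp E 1) j, by
          obtain ⟨x, hx⟩ := y.2
          exact ⟨x j, by rw [← hx]; rfl⟩⟩
        map_add' := fun y z => by ext j; simp
        map_smul' := fun c y => by ext j; simp }
    have hinj : Function.Injective F := by
      rw [← LinearMap.ker_eq_bot, LinearMap.ker_eq_bot']
      intro y hy
      obtain ⟨x, hx⟩ := y.2
      ext j
      by_cases hj : j < n
      · have := congrFun hy ⟨j, hj⟩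
        have h2 := congrArg Subtype.val this
        simpa [F] using h2
      · have h0 : blkIdx E n j = 0 := blkIdx_eq_zero hpos (not_lt.1 hj)
        rw [← hx]
        change v j (blkIdx E n j) (x j) = 0
        rw [h0, hzero j]
        rfl
    have hsurj : Function.Surjective F := by
      intro z
      choose w hw using fun j : Fin n => (z j).2
      refine ⟨⟨T (∑ j : Fin n, lp.single 1 (j : ℕ) (w j)), ⟨_, rfl⟩⟩, ?_⟩
      ext j
      change (v j (blkIdx E n j)) ((∑ i : Fin n, lp.single 1 (i : ℕ) (w i) : lp E 1) j) = z j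
      rw [lp.coeFn_sum, Finset.sum_apply, Finset.sum_eq_single j]
      · rw [lp.single_apply_self]
        exact hw j
      · intro i _ hij
        rw [lp.single_apply_ne]
        intro h
        exact hij (Fin.ext h.symm)
      · intro h
        exact absurd (Finset.mem_univ j) h
    have e1 := (LinearEquiv.ofBijective F ⟨hinj, hsurj⟩).finrank_eq
    rw [e1, Module.finrank_pi_fintype]
    have e2 : ∀ j : Fin n, Module.finrank ℝ
        (LinearMap.range (v j (blkIdx E n j) : E j →ₗ[ℝ] E j)) = blkIdx E n j :=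
      fun j => hrank j _ (blkIdx_le n j)
    rw [Finset.sum_congr rfl (fun j _ => e2 j), Fin.sum_univ_eq_sum_range (fun j => blkIdx E n j),
      blkIdx_sum]
    exact min_eq_left (le_sum_finrank hpos n)
  · intro n m _ hnm
    ext x j
    simp only [ContinuousLinearMap.comp_apply, diag_apply]
    rw [← ContinuousLinearMap.comp_apply, hnest j _ _ (blkIdx_mono hnm j) (blkIdx_le m j)]
  · intro x
    rw [tendsto_iff_norm_sub_tendsto_zero]
    have hlam : 0 ≤ lam := (norm_nonneg _).trans (hnorm 0 0 (Nat.zero_le _))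
    have key : Tendsto (fun n => ∑' j, ‖v j (blkIdx E n j) (x j) - x j‖) atTop
        (𝓝 (∑' _ : ℕ, (0 : ℝ))) := by
      refine tendsto_tsum_of_dominated_convergence (bound := fun j => (lam + 1) * ‖x j‖)
        ((l1_summable x).mul_left _) ?_ ?_
      · intro j
        apply tendsto_const_nhds.congr'
        filter_upwards [eventually_ge_atTop
          (∑ i ∈ Finset.range (j + 1), Module.finrank ℝ (E i))] with n hn
        rw [blkIdx_eq_finrank hn, htop]
        simp
      · refine Eventually.of_forall fun n j => ?_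
        rw [Real.norm_of_nonneg (norm_nonneg _)]
        calc ‖v j (blkIdx E n j) (x j) - x j‖ ≤ ‖v j (blkIdx E n j) (x j)‖ + ‖x j‖ :=
              norm_sub_le _ _
          _ ≤ lam * ‖x j‖ + ‖x j‖ := by
              gcongr
              exact ((v j _).le_opNorm _).trans
                (mul_le_mul_of_nonneg_right (hM n j) (norm_nonneg _))
          _ = (lam + 1) * ‖x j‖ := by ring
    simp only [tsum_zero] at key
    refine key.congr fun n => ?_
    rw [l1_norm_eq]
    rfl

end Strict

section Local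

variable [∀ k, FiniteDimensional ℝ (E k)]

/-- **Local operators of a Schauder basis of an `ℓ¹`-sum.** `A n j = P_j s_n J_k`,
`B n j = P_k s_n J_j`. -/
theorem exists_local_of_schauder (b : SchauderBasis ℝ (lp E 1)) :
    ∃ C : ℝ, 1 ≤ C ∧ ∀ k, ∃ (A : ℕ → ∀ j, E k →L[ℝ] E j) (B : ℕ → ∀ j, E j →L[ℝ] E k),
      (∀ n, A n k = B n k) ∧
      (∀ n x (s : Finset ℕ), ∑ j ∈ s, ‖A n j x‖ ≤ C * ‖x‖) ∧
      (∀ n j, ‖B n j‖ ≤ C) ∧
      (∀ n m x, HasSum (fun j => B n j (A m j x)) (A (min n m) k x)) ∧
      (A 0 k = 0) ∧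
      (∀ x, Tendsto (fun n => A n k x) atTop (𝓝 x)) ∧
      (∀ n, Module.finrank ℝ
        (LinearMap.range ((A (n + 1) k - A n k : E k →L[ℝ] E k) : E k →ₗ[ℝ] E k)) ≤ 1) := by
  have : ∀ k, CompleteSpace (E k) := fun k => FiniteDimensional.complete ℝ (E k)
  obtain ⟨C, hC⟩ := b.exists_norm_proj_le
  refine ⟨max C 1, le_max_right _ _, fun k => ?_⟩
  let J : ∀ j, E j →L[ℝ] lp E 1 := fun j => lp.singleContinuousLinearMap ℝ E 1 j
  let P : ∀ j, lp E 1 →L[ℝ] E j := fun j => lp.evalCLM ℝ E 1 j
  have hJ : ∀ j x, ‖J j x‖ = ‖x‖ := fun j x => lp.norm_single (by simp) j x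
  have hP : ∀ j (y : lp E 1), P j y = y j := fun j y => rfl
  have hPn : ∀ j (y : lp E 1), ‖P j y‖ ≤ ‖y‖ := fun j y =>
    lp.norm_apply_le_norm (by simp) y j
  have hsum : ∀ y : lp E 1, HasSum (fun j => J j (P j y)) y := fun y =>
    lp.hasSum_single (by simp) y
  have hC1 : ∀ n, ‖b.proj n‖ ≤ max C 1 := fun n => (hC n).trans (le_max_left _ _)
  refine ⟨fun n j => (P j).comp ((b.proj n).comp (J k)),
    fun n j => (P k).comp ((b.proj n).comp (J j)), ?_, ?_, ?_, ?_, ?_, ?_, ?_⟩
  · intro n
    rfl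
  · intro n x s
    calc ∑ j ∈ s, ‖P j (b.proj n (J k x))‖ ≤ ∑' j, ‖(b.proj n (J k x)) j‖ :=
          (l1_summable _).sum_le_tsum s (fun _ _ => norm_nonneg _)
      _ = ‖b.proj n (J k x)‖ := (l1_norm_eq _).symm
      _ ≤ max C 1 * ‖J k x‖ := (b.proj n).le_of_opNorm_le (hC1 n) _
      _ = _ := by rw [hJ]
  · intro n j
    refine ContinuousLinearMap.opNorm_le_bound _ (by positivity) fun x => ?_
    calc ‖P k (b.proj n (J j x))‖ ≤ ‖b.proj n (J j x)‖ := hPn _ _
      _ ≤ max C 1 * ‖J j x‖ := (b.proj n).le_of_opNorm_le (hC1 n) _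
      _ = _ := by rw [hJ]
  · intro n m x
    have h1 := (hsum (b.proj m (J k x))).mapL ((P k).comp (b.proj n))
    have h2 : ((P k).comp (b.proj n)) (b.proj m (J k x)) = P k (b.proj (min n m) (J k x)) := by
      rw [ContinuousLinearMap.comp_apply, b.proj_comp]
    rw [h2] at h1
    exact h1
  · ext x
    simp
  · intro x
    have h1 := b.tendsto_proj (J k x)
    have h2 := ((P k).continuous.tendsto _).comp h1
    have h3 : P k (J k x) = x := by
      rw [hP]
      exact lp.single_apply_self 1 k x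
    rw [h3] at h2
    exact h2
  · intro n
    have h1 : (((P k).comp ((b.proj (n + 1)).comp (J k)) - (P k).comp ((b.proj n).comp (J k)) :
        E k →L[ℝ] E k) : E k →ₗ[ℝ] E k) =
        (LinearMap.toSpanSingleton ℝ (E k) (P k (b n))).comp
          ((b.coord n : lp E 1 →ₗ[ℝ] ℝ).comp (J k : E k →ₗ[ℝ] lp E 1)) := by
      ext x
      simp only [ContinuousLinearMap.coe_coe, _root_.sub_apply,
        ContinuousLinearMap.comp_apply, LinearMap.comp_apply,
        LinearMap.toSpanSingleton_apply, SchauderBasis.proj_apply, Finset.sum_range_succ,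
        map_add, map_smul]
      simp
    rw [h1]
    refine (Submodule.finrank_mono (LinearMap.range_comp_le_range _ _)).trans ?_
    exact (LinearMap.finrank_range_le _).trans (by simp)

end Local

end SPB87
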